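import Pool.Agent.Helper94_ZAR.Main

/-!
# Row TVA
-/

namespace Pool.Agent.ZAR.H94

open MvPowerSeries

variable {K L : Type} [Field K] [Field L] [Algebra K L]

theorem colB (v : Fin 6 → K) (η : MvPowerSeries (Fin 2) L) (d : Fin 3 → MvPowerSeries (Fin 2) L)
    (m : Fin 5) :
    subst (prm' η d) (bc K L (Fin 3) (pderiv K 1 (fB v m))) =
      (if m = 3 then 1 else 0) + X 0 ^ 2 *
        (C (algebraMap K L ((![0, 0, v 1 ^ 2, 0, 0] : Fin 5 → K) m)) + X 0 *
        (![0, 0, C (algebraMap K L (v 1 ^ 2)) * (X 0 ^ 3 * d 0 ^ 2 - 2 * X 0 * d 0), 0, 0] :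
          Fin 5 → MvPowerSeries (Fin 2) L) m) := by
  have h := hasSubst_of_constantCoeff_zero (prm'_cc η d)
  have h0 : subst (prm' η d) (0 : MvPowerSeries (Fin 3) L) = 0 := by
    rw [← coe_substAlgHom h, map_zero]
  have h1 : subst (prm' η d) (1 : MvPowerSeries (Fin 3) L) = 1 := by
    rw [← coe_substAlgHom h, map_one]
  rw [← coe_substAlgHom h]
  have hX : ∀ i, substAlgHom (R := L) h (X i) = prm' η d i := substAlgHom_X h
  have hC : ∀ r : L, substAlgHom (R := L) h (C r) = C r :=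
    fun r => (substAlgHom (R := L) h).commutes r
  fin_cases m
  · simp [fB, Derivation.leibniz, Derivation.leibniz_pow, pderiv_X_of_ne, h0, h1]
  · simp [fB, Derivation.leibniz, Derivation.leibniz_pow, pderiv_X_of_ne, h0, h1]
  · have e : pderiv K 1 (fB v 2) = C (v 1 ^ 2) * X 0 ^ 2 := by
      simp [fB, Derivation.leibniz, Derivation.leibniz_pow, pderiv_X_of_ne]
    simp only [Fin.reduceFinMk]
    rw [e, bc, map_mul, map_pow (MvPowerSeries.map (algebraMap K L)), map_C, map_X, map_mul,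
      map_pow (substAlgHom (R := L) h), hX, hC]
    simp only [prm', Matrix.cons_val_zero]
    simp
    ring
  · simp [fB, Derivation.leibniz, Derivation.leibniz_pow, pderiv_X_of_ne, h0, h1]
  · simp [fB, Derivation.leibniz, Derivation.leibniz_pow, pderiv_X_of_ne, h0, h1]

/-- Row TVA. -/
theorem tva (hGVK : GVKStmt) (hCHA : CHAStmt) (hHAD : HADStmt) (hGDF : GDFStmt)
    (hTVD : TVDStmt) (hGID : GIDStmt) : TVAStmt := by
  intro K L _ _ _ _ u v φ η d ρ hu h1 h2 h3 hφ hS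
  refine tv_main hGVK hCHA hHAD hGDF hTVD u v φ η d ρ (fB v) _ _ hu hφ hS (fB_cc v)
    (fun j => ⟨_, (hGID K L v η d j).1⟩) (colB v η d) ?_
  have e : ((Matrix.of fun (m : Fin 5) (k : Fin 4) =>
      (![(![0, v 2, v 3, v 4, v 5] : Fin 5 → K) m, if m = 3 then 1 else 0,
        (![0, 0, 0, 0, 1] : Fin 5 → K) m, (![0, 0, v 1 ^ 2, 0, 0] : Fin 5 → K) m] :
          Fin 4 → K) k).submatrix (Fin.succ : Fin 4 → Fin 5) id) =
      !![v 2, 0, 0, 0; v 3, 0, 0, v 1 ^ 2; v 4, 1, 0, 0; v 5, 0, 1, 0] := by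
    ext i k
    fin_cases i <;> fin_cases k <;> simp
  rw [e]
  have e2 : (!![v 2, 0, 0, 0; v 3, 0, 0, v 1 ^ 2; v 4, 1, 0, 0; v 5, 0, 1, 0] :
      Matrix (Fin 4) (Fin 4) K).det = v 2 * v 1 ^ 2 := by
    simp [Matrix.det_succ_row_zero, Fin.sum_univ_succ, Fin.succAbove]
  rw [e2]
  exact mul_ne_zero h2 (pow_ne_zero _ h1)

end Pool.Agent.ZAR.H94
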