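import Pool.Agent.Helper94_ZAR.Main

/-!
# Row TVB
-/

namespace Pool.Agent.ZAR.H94

open MvPowerSeries

variable {K L : Type} [Field K] [Field L] [Algebra K L]

theorem colC (v : Fin 6 → K) (η : MvPowerSeries (Fin 2) L) (d : Fin 3 → MvPowerSeries (Fin 2) L)
    (m : Fin 5) :
    subst (prm' η d) (bc K L (Fin 3) (pderiv K 1 (fC v m))) =
      (if m = 3 then 1 else 0) + X 0 ^ 2 *
        (C (algebraMap K L ((![0, v 1 ^ 2, 0, 0, 0] : Fin 5 → K) m)) + X 0 *
        (![-(2 * X 0 * (C (algebraMap K L (v 2)) * (1 - X 0 ^ 2 * d 0) +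
            C (algebraMap K L (v 1 ^ 2)) * (X 1 - X 0 ^ 3 * d 2) * (X 0 *
              (1 - X 0 ^ 2 * d 0) ^ 2) + C (algebraMap K L (v 1 ^ 2)) *
              (X 0 * (1 - X 0 ^ 2 * d 0) ^ 2) * (X 0 * η - X 0 ^ 3 * d 1)) *
            (C (algebraMap K L (v 1 ^ 2)) * (1 - X 0 ^ 2 * d 0) ^ 2) *
            (C (algebraMap K L (v 3)) * (1 - X 0 ^ 2 * d 0))),
          C (algebraMap K L (v 1 ^ 2)) * (X 0 ^ 3 * d 0 ^ 2 - 2 * X 0 * d 0), 0, 0, 0] :
          Fin 5 → MvPowerSeries (Fin 2) L) m) := by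
  have h := hasSubst_of_constantCoeff_zero (prm'_cc η d)
  have h0 : subst (prm' η d) (0 : MvPowerSeries (Fin 3) L) = 0 := by
    rw [← coe_substAlgHom h, map_zero]
  have h1 : subst (prm' η d) (1 : MvPowerSeries (Fin 3) L) = 1 := by
    rw [← coe_substAlgHom h, map_one]
  rw [← coe_substAlgHom h]
  have hX : ∀ i, substAlgHom (R := L) h (X i) = prm' η d i := substAlgHom_X h
  have hC : ∀ r : L, substAlgHom (R := L) h (C r) = C r :=
    fun r => (substAlgHom (R := L) h).commutes r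
  fin_cases m
  · have e : pderiv K 1 (fC v 0) = -(2 * (C (v 2) * X 0 + C (v 1 ^ 2) * X 2 * X 0 ^ 2 +
        C (v 1 ^ 2) * X 0 ^ 2 * X 1) * (C (v 1 ^ 2) * X 0 ^ 2) * (C (v 3) * X 0)) := by
      simp [fC, Derivation.leibniz, Derivation.leibniz_pow, pderiv_X_of_ne]
      ring
    simp only [Fin.zero_eta]
    rw [e, bc]
    simp only [map_neg, map_mul, map_add, map_pow (MvPowerSeries.map (algebraMap K L)),
      map_C, map_X, map_pow (substAlgHom (R := L) h), hX, hC, map_ofNat]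
    simp only [prm']
    simp
    ring
  · have e : pderiv K 1 (fC v 1) = C (v 1 ^ 2) * X 0 ^ 2 := by
      simp [fC, Derivation.leibniz, Derivation.leibniz_pow, pderiv_X_of_ne]
    simp only [Fin.mk_one]
    rw [e, bc, map_mul, map_pow (MvPowerSeries.map (algebraMap K L)), map_C, map_X, map_mul,
      map_pow (substAlgHom (R := L) h), hX, hC]
    simp only [prm', Matrix.cons_val_zero]
    simp
    ring
  · simp [fC, Derivation.leibniz, Derivation.leibniz_pow, pderiv_X_of_ne, h0, h1]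
  · simp [fC, Derivation.leibniz, Derivation.leibniz_pow, pderiv_X_of_ne, h0, h1]
  · simp [fC, Derivation.leibniz, Derivation.leibniz_pow, pderiv_X_of_ne, h0, h1]

/-- Row TVB. -/
theorem tvb (hGVK : GVKStmt) (hCHA : CHAStmt) (hHAD : HADStmt) (hGDF : GDFStmt)
    (hTVD : TVDStmt) (hGID : GIDStmt) : TVBStmt := by
  intro K L _ _ _ _ u v φ η d ρ hu h1 h2 h3 hφ hS
  refine tv_main hGVK hCHA hHAD hGDF hTVD u v φ η d ρ (fC v) _ _ hu hφ hS (fC_cc v)
    (fun j => ⟨_, (hGID K L v η d j).2⟩) (colC v η d) ?_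
  have e : ((Matrix.of fun (m : Fin 5) (k : Fin 4) =>
      (![(![0, v 2, v 3, v 4, v 5] : Fin 5 → K) m, if m = 3 then 1 else 0,
        (![0, 0, 0, 0, 1] : Fin 5 → K) m, (![0, v 1 ^ 2, 0, 0, 0] : Fin 5 → K) m] :
          Fin 4 → K) k).submatrix (Fin.succ : Fin 4 → Fin 5) id) =
      !![v 2, 0, 0, v 1 ^ 2; v 3, 0, 0, 0; v 4, 1, 0, 0; v 5, 0, 1, 0] := by
    ext i k
    fin_cases i <;> fin_cases k <;> simp
  rw [e]
  have e2 : (!![v 2, 0, 0, v 1 ^ 2; v 3, 0, 0, 0; v 4, 1, 0, 0; v 5, 0, 1, 0] :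
      Matrix (Fin 4) (Fin 4) K).det = -(v 3 * v 1 ^ 2) := by
    simp [Matrix.det_succ_row_zero, Fin.sum_univ_succ, Fin.succAbove]
    ring
  rw [e2]
  exact neg_ne_zero.2 (mul_ne_zero h3 (pow_ne_zero _ h1))

end Pool.Agent.ZAR.H94
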