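import Pool.Agent.Helper94_ZAR.Tool

/-!
# Transversality along the secant surfaces: common part of the rows TVA and TVB
-/

namespace Pool.Agent.ZAR.H94

open MvPowerSeries

variable {K L : Type} [Field K] [Field L] [Algebra K L]

theorem prm_cc (η : MvPowerSeries (Fin 2) L) (i : Fin 3) : constantCoeff (prm η i) = 0 := by
  fin_cases i <;> simp [prm]

theorem prm'_cc (η : MvPowerSeries (Fin 2) L) (d : Fin 3 → MvPowerSeries (Fin 2) L) (i : Fin 3) :
    constantCoeff (prm' η d i) = 0 := by
  fin_cases i <;> simp [prm']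

theorem fA_cc (v : Fin 6 → K) (i : Fin 5) : constantCoeff (fA v i) = 0 := by
  fin_cases i <;> simp [fA]

theorem fB_cc (v : Fin 6 → K) (i : Fin 5) : constantCoeff (fB v i) = 0 := by
  fin_cases i <;> simp [fB]

theorem fC_cc (v : Fin 6 → K) (i : Fin 5) : constantCoeff (fC v i) = 0 := by
  fin_cases i <;> simp [fC]

/-- The constant terms of the tangent vectors of `fA`. -/
theorem fA_0 (v : Fin 6 → K) (m : Fin 5) :
    constantCoeff (pderiv K 0 (fA v m)) = (![0, v 2, v 3, v 4, v 5] : Fin 5 → K) m := by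
  fin_cases m <;> simp [fA, Derivation.leibniz, Derivation.leibniz_pow, pderiv_X_of_ne]

theorem fA_1 (v : Fin 6 → K) (m : Fin 5) :
    pderiv K 1 (fA v m) = if m = 3 then 1 else 0 := by
  fin_cases m <;> simp [fA, Derivation.leibniz, Derivation.leibniz_pow, pderiv_X_of_ne]

theorem fA_2 (v : Fin 6 → K) (m : Fin 5) :
    constantCoeff (pderiv K 2 (fA v m)) = (![0, 0, 0, 0, 1] : Fin 5 → K) m := by
  fin_cases m <;> simp [fA, Derivation.leibniz, Derivation.leibniz_pow, pderiv_X_of_ne]

theorem X0_ne : (X 0 : MvPowerSeries (Fin 2) L) ≠ 0 := by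
  intro h
  have h1 := congrArg (pderiv L 0) h
  rw [pderiv_X_self, map_zero] at h1
  exact one_ne_zero h1

/-- The common part. -/
theorem tv_main (hGVK : GVKStmt) (hCHA : CHAStmt) (hHAD : HADStmt) (hGDF : GDFStmt)
    (hTVD : TVDStmt) [CharZero K] (u : Fin 4 → Fin 5 → L)
    (v : Fin 6 → K) (φ : Fin 5 → MvPowerSeries (Fin 5) K)
    (η : MvPowerSeries (Fin 2) L) (d : Fin 3 → MvPowerSeries (Fin 2) L)
    (ρ : MvPowerSeries (Fin 2) L) (F' : Fin 5 → MvPowerSeries (Fin 3) K) (e : Fin 5 → K)
    (y : Fin 5 → MvPowerSeries (Fin 2) L)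
    (hu : Gen K u) (hφ : Coord φ) (hS : Sol u φ (fA v) F' η d ρ)
    (hF' : ∀ i, constantCoeff (F' i) = 0)
    (hdiff : ∀ j, (X 0 : MvPowerSeries (Fin 2) L) ^ 3 ∣
      pt (fA v) (prm η) j - pt F' (prm' η d) j)
    (hcol : ∀ m, subst (prm' η d) (bc K L (Fin 3) (pderiv K 1 (F' m))) =
      (if m = 3 then 1 else 0) + X 0 ^ 2 * (C (algebraMap K L (e m)) + X 0 * y m))
    (hN : ((Matrix.of fun (m : Fin 5) (k : Fin 4) =>
      (![(![0, v 2, v 3, v 4, v 5] : Fin 5 → K) m, if m = 3 then 1 else 0,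
        (![0, 0, 0, 0, 1] : Fin 5 → K) m, e m] : Fin 4 → K) k).submatrix
          (Fin.succ : Fin 4 → Fin 5) id).det ≠ 0) :
    Tv (pf u φ (fA v)) (pf u φ F') (prm η) (prm' η d) := by
  have hA := fA_cc (K := K) v
  have hs := prm_cc η
  have hs' := prm'_cc η d
  refine hTVD L 4 3 3 2 _ _ _ _ ![Sum.inl 0, Sum.inl 1, Sum.inl 2, Sum.inr 1] hs hs' ?_ ?_
  · intro i
    rw [subst_pf hA hs, subst_pf hF' hs', ← sub_eq_zero, ← Finset.sum_sub_distrib]
    have h1 : ∀ j, C (u i j) * subst (pt (fA v) (prm η)) (bc K L (Fin 5) (φ j)) -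
        C (u i j) * subst (pt F' (prm' η d)) (bc K L (Fin 5) (φ j)) =
        C (u i j * kv u j) * (X 0 ^ 3 * ρ) := by
      intro j
      have h2 : subst (pt (fA v) (prm η)) (bc K L (Fin 5) (φ j)) -
        subst (pt F' (prm' η d)) (bc K L (Fin 5) (φ j)) = C (kv u j) * X 0 ^ 3 * ρ := hS j
      rw [← mul_sub, h2, map_mul]
      ring
    rw [Finset.sum_congr rfl fun j _ => h1 j, ← Finset.sum_mul, ← map_sum,
      (hGVK K L 4 u hu).1 i, map_zero, zero_mul]
  · set A := mA u φ (pt (fA v) (prm η)) with hAd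
    set A' := mA u φ (pt F' (prm' η d)) with hA'd
    have hP := pt_cc hA hs
    have hP' := pt_cc hF' hs'
    have hc := mA_congr (u := u) (φ := φ) hHAD hP hP' hdiff
    choose r hr using fun i => hc i 3
    have e0 : ∀ i, tanM (pf u φ (fA v)) (pf u φ F') (prm η) (prm' η d)
        ![Sum.inl 0, Sum.inl 1, Sum.inl 2, Sum.inr 1] i 0 =
        ∑ m, A i m * subst (prm η) (bc K L (Fin 3) (pderiv K 0 (fA v m))) :=
      fun i => subst_pderiv_pf hCHA hA hs i 0
    have e1 : ∀ i, tanM (pf u φ (fA v)) (pf u φ F') (prm η) (prm' η d)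
        ![Sum.inl 0, Sum.inl 1, Sum.inl 2, Sum.inr 1] i 1 = A i 3 := by
      intro i
      have h := subst_pderiv_pf (u := u) (φ := φ) hCHA hA hs i 1
      refine h.trans ?_
      have h2 : ∀ m, subst (prm η) (bc K L (Fin 3) (pderiv K 1 (fA v m))) =
          if m = 3 then 1 else 0 := by
        intro m
        rw [fA_1]
        split_ifs
        · rw [map_one]
          have h3 := subst_C' hs (1 : L)
          rwa [map_one, map_one] at h3
        · rw [map_zero]
          have h3 := subst_C' hs (0 : L)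
          rwa [map_zero, map_zero] at h3
      simp only [h2, mul_ite, mul_one, mul_zero, Finset.sum_ite_eq', Finset.mem_univ, if_true]
      rfl
    have e2 : ∀ i, tanM (pf u φ (fA v)) (pf u φ F') (prm η) (prm' η d)
        ![Sum.inl 0, Sum.inl 1, Sum.inl 2, Sum.inr 1] i 2 =
        ∑ m, A i m * subst (prm η) (bc K L (Fin 3) (pderiv K 2 (fA v m))) :=
      fun i => subst_pderiv_pf hCHA hA hs i 2
    have e3 : ∀ i, tanM (pf u φ (fA v)) (pf u φ F') (prm η) (prm' η d)
        ![Sum.inl 0, Sum.inl 1, Sum.inl 2, Sum.inr 1] i 3 =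
        A i 3 + X 0 ^ 2 * (∑ m, A' i m * (C (algebraMap K L (e m)) + X 0 * y m) -
          X 0 * r i) := by
      intro i
      have h := subst_pderiv_pf (u := u) (φ := φ) hCHA hF' hs' i 1
      refine h.trans ?_
      simp only [hcol, mul_add (mA u φ (pt F' (prm' η d)) i _), Finset.sum_add_distrib,
        mul_ite, mul_one, mul_zero, Finset.sum_ite_eq', Finset.mem_univ, if_true]
      have h4 : ∑ m, mA u φ (pt F' (prm' η d)) i m *
          (X 0 ^ 2 * (C (algebraMap K L (e m)) + X 0 * y m)) =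
          X 0 ^ 2 * ∑ m, A' i m * (C (algebraMap K L (e m)) + X 0 * y m) := by
        rw [Finset.mul_sum]
        refine Finset.sum_congr rfl fun m _ => ?_
        rw [hA'd]
        ring
      rw [h4]
      have h5 := hr i
      have h6 : mA u φ (pt F' (prm' η d)) i 3 = A i 3 - X 0 ^ 3 * r i := by
        rw [← h5, hAd]
        ring
      rw [h6]
      simp only [mul_add (A' i _), Finset.sum_add_distrib]
      ring
    refine det_key _ (X 0 ^ 2) (pow_ne_zero _ X0_ne)
      (fun i => ∑ m, A' i m * (C (algebraMap K L (e m)) + X 0 * y m) - X 0 * r i)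
      (fun i => by rw [e3, e1]) ?_
    have hfin := gen_det (L := L) hGDF hu hφ _ hN
    have h7 : (Matrix.of fun i k : Fin 4 => constantCoeff (if k = 3 then
          (∑ m, A' i m * (C (algebraMap K L (e m)) + X 0 * y m) - X 0 * r i) else
          tanM (pf u φ (fA v)) (pf u φ F') (prm η) (prm' η d)
            ![Sum.inl 0, Sum.inl 1, Sum.inl 2, Sum.inr 1] i k)) =
        (Matrix.of fun (i : Fin 4) (k : Fin 4) =>
      ∑ m, (∑ j, u i j * algebraMap K L (jac0 φ j m)) * algebraMap K L
        ((Matrix.of fun (m : Fin 5) (k : Fin 4) =>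
      (![(![0, v 2, v 3, v 4, v 5] : Fin 5 → K) m, if m = 3 then 1 else 0,
        (![0, 0, 0, 0, 1] : Fin 5 → K) m, e m] : Fin 4 → K) k) m k)) := by
      ext i k
      simp only [Matrix.of_apply]
      fin_cases k
      · simp only [Fin.zero_eta, Fin.isValue, Fin.reduceEq, if_false]
        rw [e0 i, map_sum]
        refine Finset.sum_congr rfl fun m _ => ?_
        rw [map_mul, mA_cc hP, cc_subst hs, constantCoeff_bc, fA_0]
        rfl
      · simp only [Fin.mk_one, Fin.isValue, Fin.reduceEq, if_false]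
        rw [e1 i, mA_cc hP]
        simp
      · simp only [Fin.reduceFinMk, Fin.isValue, Fin.reduceEq, if_false]
        rw [e2 i, map_sum]
        refine Finset.sum_congr rfl fun m _ => ?_
        rw [map_mul, mA_cc hP, cc_subst hs, constantCoeff_bc, fA_2]
        rfl
      · simp only [Fin.reduceFinMk, Fin.isValue, if_true]
        rw [map_sub, map_sum, map_mul, constantCoeff_X, zero_mul, sub_zero]
        refine Finset.sum_congr rfl fun m _ => ?_
        rw [map_mul, mA_cc hP', map_add, map_mul, constantCoeff_X, zero_mul, add_zero,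
          constantCoeff_C]
        rfl
    rw [h7]
    exact hfin

end Pool.Agent.ZAR.H94
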