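import Pool.Agent.ZAR.Stmts

/-!
# Tools for the rows TVA and TVB (problem MP_c9b61d_ag)
-/

namespace Pool.Agent.ZAR.H94

open MvPowerSeries

variable {K L : Type} [Field K] [Field L] [Algebra K L]

/-- Substitution of series without constant terms, as a ring homomorphism. -/
theorem subst_C' {m q : ℕ} {s : Fin m → MvPowerSeries (Fin q) L}
    (hs : ∀ i, constantCoeff (s i) = 0) (r : L) :
    subst s (C r : MvPowerSeries (Fin m) L) = C r := by
  have h := hasSubst_of_constantCoeff_zero hs
  rw [← coe_substAlgHom h]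
  exact (substAlgHom h).commutes r

theorem subst_sum' {m q : ℕ} {s : Fin m → MvPowerSeries (Fin q) L}
    (hs : ∀ i, constantCoeff (s i) = 0) {ι : Type} (t : Finset ι)
    (f : ι → MvPowerSeries (Fin m) L) :
    subst s (∑ i ∈ t, f i) = ∑ i ∈ t, subst s (f i) := by
  have h := hasSubst_of_constantCoeff_zero hs
  rw [← coe_substAlgHom h, map_sum]

theorem subst_mul' {m q : ℕ} {s : Fin m → MvPowerSeries (Fin q) L}
    (hs : ∀ i, constantCoeff (s i) = 0) (f g : MvPowerSeries (Fin m) L) :
    subst s (f * g) = subst s f * subst s g :=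
  subst_mul (hasSubst_of_constantCoeff_zero hs) f g

theorem constantCoeff_bc {σ : Type} (f : MvPowerSeries σ K) :
    constantCoeff (bc K L σ f) = algebraMap K L (constantCoeff f) := by
  simp [bc]

theorem bc_pderiv {σ : Type} (f : MvPowerSeries σ K) (i : σ) :
    pderiv L i (bc K L σ f) = bc K L σ (pderiv K i f) := by
  ext n
  rw [coeff_pderiv, bc, coeff_map, coeff_map, coeff_pderiv, map_mul, map_add, map_natCast,
    map_one]

/-- The constant term of a substitution. -/
theorem cc_subst {m q : ℕ} {s : Fin m → MvPowerSeries (Fin q) L}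
    (hs : ∀ i, constantCoeff (s i) = 0) (f : MvPowerSeries (Fin m) L) :
    constantCoeff (subst s f) = constantCoeff f := by
  have h := hasSubst_of_constantCoeff_zero hs
  have h1 : constantCoeff (subst s (f - C (constantCoeff f))) = 0 :=
    constantCoeff_subst_eq_zero h hs (by simp)
  rw [subst_sub h, subst_C' hs, map_sub, constantCoeff_C, sub_eq_zero] at h1
  exact h1

section point

variable {n p : ℕ} (u : Fin n → Fin (n + 1) → L)
  (φ : Fin (n + 1) → MvPowerSeries (Fin (n + 1)) K)
  (F : Fin (n + 1) → MvPowerSeries (Fin p) K)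

/-- The point of the family over the parameters `s`. -/
noncomputable def pt {q : ℕ} (F : Fin (n + 1) → MvPowerSeries (Fin p) K)
    (s : Fin p → MvPowerSeries (Fin q) L) : Fin (n + 1) → MvPowerSeries (Fin q) L :=
  fun j => subst s (bc K L (Fin p) (F j))

/-- The matrix `u * (∂φ)(P)`. -/
noncomputable def mA {q : ℕ} (u : Fin n → Fin (n + 1) → L)
    (φ : Fin (n + 1) → MvPowerSeries (Fin (n + 1)) K)
    (P : Fin (n + 1) → MvPowerSeries (Fin q) L) (i : Fin n) (m : Fin (n + 1)) :
    MvPowerSeries (Fin q) L :=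
  ∑ j, C (u i j) * subst P (pderiv L m (bc K L (Fin (n + 1)) (φ j)))

variable {u φ F}

theorem pt_cc {q : ℕ} {s : Fin p → MvPowerSeries (Fin q) L}
    (hF : ∀ i, constantCoeff (F i) = 0) (hs : ∀ i, constantCoeff (s i) = 0) (j : Fin (n + 1)) :
    constantCoeff (pt F s j) = 0 := by
  rw [pt, cc_subst hs, constantCoeff_bc, hF, map_zero]

theorem bc_F_cc (hF : ∀ i, constantCoeff (F i) = 0) (j : Fin (n + 1)) :
    constantCoeff (bc K L (Fin p) (F j)) = 0 := by
  rw [constantCoeff_bc, hF, map_zero]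

theorem bc_subst (hF : ∀ i, constantCoeff (F i) = 0) (f : MvPowerSeries (Fin (n + 1)) K) :
    bc K L (Fin p) (subst F f) = subst (fun j => bc K L (Fin p) (F j)) (bc K L _ f) :=
  map_subst (hasSubst_of_constantCoeff_zero hF) f

/-- Values of the push forward. -/
theorem subst_pf {q : ℕ} {s : Fin p → MvPowerSeries (Fin q) L}
    (hF : ∀ i, constantCoeff (F i) = 0) (hs : ∀ i, constantCoeff (s i) = 0) (i : Fin n) :
    subst s (pf u φ F i) = ∑ j, C (u i j) * subst (pt F s) (bc K L (Fin (n + 1)) (φ j)) := by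
  rw [pf, subst_sum' hs]
  refine Finset.sum_congr rfl fun j _ => ?_
  rw [subst_mul' hs, subst_C' hs, bc_subst hF,
    subst_comp_subst_apply (hasSubst_of_constantCoeff_zero (bc_F_cc hF))
      (hasSubst_of_constantCoeff_zero hs)]
  rfl

/-- Values of the derivatives of the push forward. -/
theorem subst_pderiv_pf (hCHA : CHAStmt) {q : ℕ} {s : Fin p → MvPowerSeries (Fin q) L}
    (hF : ∀ i, constantCoeff (F i) = 0) (hs : ∀ i, constantCoeff (s i) = 0) (i : Fin n)
    (k : Fin p) :
    subst s (pderiv L k (pf u φ F i)) =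
      ∑ m, mA u φ (pt F s) i m * subst s (bc K L (Fin p) (pderiv K k (F m))) := by
  have h1 : pderiv L k (pf u φ F i) = ∑ j, C (u i j) *
      ∑ m, subst (fun j => bc K L (Fin p) (F j)) (pderiv L m (bc K L (Fin (n + 1)) (φ j))) *
        bc K L (Fin p) (pderiv K k (F m)) := by
    rw [pf, map_sum]
    refine Finset.sum_congr rfl fun j _ => ?_
    rw [bc_subst hF, Derivation.leibniz, pderiv_C, smul_zero, add_zero, smul_eq_mul,
      hCHA L (n + 1) p _ (bc_F_cc hF)]
    simp only [bc_pderiv]
  rw [h1, subst_sum' hs]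
  simp only [mA, Finset.sum_mul]
  rw [Finset.sum_comm]
  refine Finset.sum_congr rfl fun j _ => ?_
  rw [subst_mul' hs, subst_C' hs, subst_sum' hs, Finset.mul_sum]
  refine Finset.sum_congr rfl fun m _ => ?_
  rw [subst_mul' hs, subst_comp_subst_apply (hasSubst_of_constantCoeff_zero (bc_F_cc hF))
      (hasSubst_of_constantCoeff_zero hs), mul_assoc]
  rfl

/-- The constant term of `u * (∂φ)(P)`. -/
theorem mA_cc {q : ℕ} {P : Fin (n + 1) → MvPowerSeries (Fin q) L}
    (hP : ∀ i, constantCoeff (P i) = 0) (i : Fin n) (m : Fin (n + 1)) :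
    constantCoeff (mA u φ P i m) = ∑ j, u i j * algebraMap K L (jac0 φ j m) := by
  rw [mA, map_sum]
  refine Finset.sum_congr rfl fun j _ => ?_
  rw [map_mul, constantCoeff_C, cc_subst hP, bc_pderiv, constantCoeff_bc, jac0, Matrix.of_apply]

/-- Congruent points give congruent matrices. -/
theorem mA_congr (hHAD : HADStmt) {q : ℕ} {P P' : Fin (n + 1) → MvPowerSeries (Fin q) L}
    (hP : ∀ i, constantCoeff (P i) = 0) (hP' : ∀ i, constantCoeff (P' i) = 0)
    {z : MvPowerSeries (Fin q) L} (hz : ∀ i, z ∣ P i - P' i) (i : Fin n) (m : Fin (n + 1)) :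
    z ∣ mA u φ P i m - mA u φ P' i m := by
  rw [mA, mA, ← Finset.sum_sub_distrib]
  refine Finset.dvd_sum fun j _ => ?_
  rw [← mul_sub]
  refine Dvd.dvd.mul_left ?_ _
  obtain ⟨Q, hQ⟩ := hHAD L (Fin (n + 1)) (pderiv L m (bc K L (Fin (n + 1)) (φ j)))
  rw [(hQ (Fin q) P P' hP hP').1]
  exact Finset.dvd_sum fun k _ => Dvd.dvd.mul_right (hz k) _

end point

/-- Generic `4 × 5` matrices: minors of `jac0 φ * N`. -/
theorem gen_det (hGDF : GDFStmt) {u : Fin 4 → Fin 5 → L}
    {φ : Fin 5 → MvPowerSeries (Fin 5) K} (hu : Gen K u) (hφ : Coord φ)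
    (N : Matrix (Fin 5) (Fin 4) K) (hN : (N.submatrix (Fin.succ : Fin 4 → Fin 5) id).det ≠ 0) :
    (Matrix.of fun (i : Fin 4) (k : Fin 4) =>
      ∑ m, (∑ j, u i j * algebraMap K L (jac0 φ j m)) * algebraMap K L (N m k)).det ≠ 0 := by
  have hJ : IsUnit (jac0 φ).det := isUnit_iff_ne_zero.2 hφ.2
  have h1 := hGDF K L 4 u hu (jac0 φ * N)
    ((1 : Matrix (Fin 5) (Fin 5) K).submatrix (Fin.succ : Fin 4 → Fin 5) id * (jac0 φ)⁻¹) (by
      rw [Matrix.mul_assoc, ← Matrix.mul_assoc (jac0 φ)⁻¹, Matrix.nonsing_inv_mul _ hJ,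
        Matrix.one_mul]
      have h2 : (1 : Matrix (Fin 5) (Fin 5) K).submatrix (Fin.succ : Fin 4 → Fin 5) id * N =
          N.submatrix (Fin.succ : Fin 4 → Fin 5) id := by
        ext i k
        simp [Matrix.mul_apply, Matrix.one_apply]
      rw [h2]
      exact hN)
  have h3 : (Matrix.of fun (i : Fin 4) (k : Fin 4) =>
      ∑ m, (∑ j, u i j * algebraMap K L (jac0 φ j m)) * algebraMap K L (N m k)) =
      Matrix.of u * (jac0 φ * N).map (algebraMap K L) := by
    ext i k
    rw [Matrix.of_apply, Matrix.mul_apply]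
    simp only [Matrix.map_apply, Matrix.of_apply, Matrix.mul_apply, map_sum, map_mul,
      Finset.mul_sum, Finset.sum_mul]
    rw [Finset.sum_comm]
    refine Finset.sum_congr rfl fun j _ => Finset.sum_congr rfl fun m _ => ?_
    ring
  rw [h3]
  exact h1

/-- The determinant of the four tangent vectors. -/
theorem det_key {q : ℕ} (T : Matrix (Fin 4) (Fin 4) (MvPowerSeries (Fin q) L))
    (z : MvPowerSeries (Fin q) L) (hz : z ≠ 0)
    (w : Fin 4 → MvPowerSeries (Fin q) L)
    (hw : ∀ i, T i 3 = T i 1 + z * w i)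
    (hD : (Matrix.of fun i k : Fin 4 => constantCoeff (if k = 3 then w i else T i k)).det ≠ 0) :
    T.det ≠ 0 := by
  set D : Matrix (Fin 4) (Fin 4) (MvPowerSeries (Fin q) L) :=
    Matrix.of fun i k : Fin 4 => if k = 3 then w i else T i k with hDdef
  have h1 : D.det ≠ 0 := by
    intro h
    apply hD
    have h2 : (Matrix.of fun i k : Fin 4 => constantCoeff (if k = 3 then w i else T i k)) =
        (constantCoeff (σ := Fin q) (R := L)).mapMatrix D := by
      ext i k
      rfl
    rw [h2, ← RingHom.map_det, h, map_zero]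
  have h2 : T = D.updateCol 3 (fun i => D i 1 + z * D i 3) := by
    ext i k
    by_cases hk : k = 3
    · subst hk
      simp [hDdef, hw]
    · simp [hDdef, hk]
  have h3 : (D.updateCol 3 (fun i => D i 1 + z * D i 3)).det = z * D.det := by
    have e1 : (fun i => D i 1 + z * D i 3) = (fun i => D i 1) + z • (fun i => D i 3) := by
      funext i
      simp
    rw [e1, Matrix.det_updateCol_add, Matrix.det_updateCol_smul]
    have e2 : (D.updateCol 3 (fun i => D i 1)).det = 0 := by
      apply Matrix.det_zero_of_column_eq (i := 3) (j := 1) (by decide)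
      intro k
      simp
    have e3 : D.updateCol 3 (fun i => D i 3) = D := by
      ext i k
      by_cases hk : k = 3
      · subst hk
        simp
      · simp [hk]
    rw [e2, e3, zero_add]
  rw [h2, h3]
  exact mul_ne_zero hz h1

end Pool.Agent.ZAR.H94
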